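import Mathlib

set_option autoImplicit false

/-!
# Fox calculus in group algebras of free groups
-/

namespace Pool.Agent.X27.HN

open MonoidAlgebra

universe u v w

variable {K : Type u} [Field K] {G : Type v} [Group G] {ι : Type w}

/-- the group element `g` in the group algebra -/
noncomputable def gg (K : Type u) [Field K] {G : Type v} [Group G] (g : G) : MonoidAlgebra K G :=
  single g 1

lemma gg_mul (g h : G) : gg K (g * h) = gg K g * gg K h := by
  unfold gg
  rw [single_mul_single, one_mul]

lemma gg_one : gg K (1 : G) = 1 := rfl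

lemma basis_induction (b : FreeGroupBasis ι G) (P : G → Prop) (h1 : P 1) (hb : ∀ i, P (b i))
    (hinv : ∀ i, P (b i) → P (b i)⁻¹) (hmul : ∀ g h, P g → P h → P (g * h)) (g : G) : P g := by
  have key : ∀ w : FreeGroup ι, P (b.repr.symm w) := by
    intro w
    induction w using FreeGroup.induction_on with
    | C1 => rw [map_one]; exact h1
    | of i => exact hb i
    | inv_of i hi => rw [map_inv]; exact hinv i hi
    | mul x y hx hy => rw [map_mul]; exact hmul _ _ hx hy
  have := key (b.repr g)
  rwa [b.repr.symm_apply_apply] at this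

open Classical in
/-- the matrices of the right Fox calculus -/
noncomputable def UR (K : Type u) [Field K] (b : FreeGroupBasis ι G) (j i : ι) :
    (Matrix (Fin 2) (Fin 2) (MonoidAlgebra K G))ˣ where
  val := !![gg K (b i), 0; if i = j then 1 else 0, 1]
  inv := !![gg K (b i)⁻¹, 0; -((if i = j then 1 else 0) * gg K (b i)⁻¹), 1]
  val_inv := by
    rw [Matrix.mul_fin_two, ← gg_mul, mul_inv_cancel, gg_one, Matrix.one_fin_two]
    simp
  inv_val := by
    rw [Matrix.mul_fin_two, neg_mul, mul_assoc, ← gg_mul, inv_mul_cancel, gg_one,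
      Matrix.one_fin_two]
    simp

/-- the homomorphism of the right Fox calculus -/
noncomputable def PhiR (K : Type u) [Field K] (b : FreeGroupBasis ι G) (j : ι) :
    G →* (Matrix (Fin 2) (Fin 2) (MonoidAlgebra K G))ˣ := b.lift (UR K b j)

lemma PhiR_b (b : FreeGroupBasis ι G) (j i : ι) : PhiR K b j (b i) = UR K b j i := by
  unfold PhiR
  simp

lemma PhiR_form (b : FreeGroupBasis ι G) (j : ι) (g : G) :
    (PhiR K b j g).val 0 0 = gg K g ∧ (PhiR K b j g).val 0 1 = 0 ∧
      (PhiR K b j g).val 1 1 = 1 := by
  refine basis_induction b (fun g => (PhiR K b j g).val 0 0 = gg K g ∧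
    (PhiR K b j g).val 0 1 = 0 ∧ (PhiR K b j g).val 1 1 = 1) ?_ ?_ ?_ ?_ g
  · rw [map_one]
    simp [gg_one]
  · intro i
    rw [PhiR_b]
    exact ⟨rfl, rfl, rfl⟩
  · intro i _
    rw [map_inv, PhiR_b]
    exact ⟨rfl, rfl, rfl⟩
  · rintro g h ⟨a1, a2, a3⟩ ⟨b1, b2, b3⟩
    rw [map_mul, Units.val_mul]
    simp only [Matrix.mul_apply, Fin.sum_univ_two]
    rw [a1, a2, a3, b1, b2, b3, gg_mul]
    simp

/-- the right Fox derivative of a group element -/
noncomputable def dR (K : Type u) [Field K] (b : FreeGroupBasis ι G) (j : ι) (g : G) :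
    MonoidAlgebra K G := (PhiR K b j g).val 1 0

lemma dR_mul (b : FreeGroupBasis ι G) (j : ι) (g h : G) :
    dR K b j (g * h) = dR K b j g * gg K h + dR K b j h := by
  unfold dR
  rw [map_mul, Units.val_mul]
  simp only [Matrix.mul_apply, Fin.sum_univ_two]
  rw [(PhiR_form b j h).1, (PhiR_form b j g).2.2]
  simp

open Classical in
lemma dR_b (b : FreeGroupBasis ι G) (j i : ι) : dR K b j (b i) = if i = j then 1 else 0 := by
  unfold dR
  rw [PhiR_b]
  rfl

/-- the linear extension of the right Fox derivative -/
noncomputable def DR (K : Type u) [Field K] (b : FreeGroupBasis ι G) (j : ι) :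
    MonoidAlgebra K G →+ MonoidAlgebra K G :=
  MonoidAlgebra.liftNC (algebraMap K (MonoidAlgebra K G) : K →+ MonoidAlgebra K G) (dR K b j)

lemma DR_single (b : FreeGroupBasis ι G) (j : ι) (g : G) (c : K) :
    DR K b j (single g c) = algebraMap K (MonoidAlgebra K G) c * dR K b j g := by
  unfold DR
  rw [liftNC_single]
  rfl

lemma single_eq (g : G) (c : K) : single g c = algebraMap K (MonoidAlgebra K G) c * gg K g := by
  unfold gg
  simp

open Classical in
lemma DR_mul (b : FreeGroupBasis ι G) (j i : ι) (f : MonoidAlgebra K G) :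
    DR K b j (gg K (b i) * f) = (if i = j then f else 0) + DR K b j f := by
  induction f using MonoidAlgebra.induction_linear with
  | zero => simp
  | add x y hx hy =>
    rw [mul_add, map_add, hx, hy, map_add]
    split_ifs <;> abel
  | single g c =>
    have e : gg K (b i) * single g c = single (b i * g) c := by
      unfold gg
      rw [single_mul_single, one_mul]
    rw [e, DR_single, DR_single, dR_mul, dR_b, mul_add]
    congr 1
    split_ifs
    · rw [one_mul, ← single_eq]
    · simp

/-- **The elements `1 - b i` are right linearly independent.** -/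
theorem right_indep [Fintype ι] (b : FreeGroupBasis ι G) (a : ι → MonoidAlgebra K G)
    (h : ∑ i, (1 - gg K (b i)) * a i = 0) (j : ι) : a j = 0 := by
  classical
  have h1 := congrArg (DR K b j) h
  rw [map_sum, map_zero] at h1
  have h2 : ∀ i, DR K b j ((1 - gg K (b i)) * a i) = if i = j then -a i else 0 := by
    intro i
    rw [sub_mul, one_mul, map_sub, DR_mul]
    split_ifs <;> abel
  rw [Finset.sum_congr rfl fun i _ => h2 i, Finset.sum_ite_eq'] at h1
  simpa using h1

/-! ### The left version -/

open Classical in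
/-- the matrices of the left Fox calculus -/
noncomputable def UL (K : Type u) [Field K] (b : FreeGroupBasis ι G) (j i : ι) :
    (Matrix (Fin 2) (Fin 2) (MonoidAlgebra K G))ˣ where
  val := !![gg K (b i), if i = j then 1 else 0; 0, 1]
  inv := !![gg K (b i)⁻¹, -(gg K (b i)⁻¹ * (if i = j then 1 else 0)); 0, 1]
  val_inv := by
    rw [Matrix.mul_fin_two, mul_neg, ← mul_assoc, ← gg_mul, mul_inv_cancel, gg_one,
      Matrix.one_fin_two]
    simp
  inv_val := by
    rw [Matrix.mul_fin_two, ← gg_mul, inv_mul_cancel, gg_one, Matrix.one_fin_two]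
    simp

/-- the homomorphism of the left Fox calculus -/
noncomputable def PhiL (K : Type u) [Field K] (b : FreeGroupBasis ι G) (j : ι) :
    G →* (Matrix (Fin 2) (Fin 2) (MonoidAlgebra K G))ˣ := b.lift (UL K b j)

lemma PhiL_b (b : FreeGroupBasis ι G) (j i : ι) : PhiL K b j (b i) = UL K b j i := by
  unfold PhiL
  simp

lemma PhiL_form (b : FreeGroupBasis ι G) (j : ι) (g : G) :
    (PhiL K b j g).val 0 0 = gg K g ∧ (PhiL K b j g).val 1 0 = 0 ∧
      (PhiL K b j g).val 1 1 = 1 := by
  refine basis_induction b (fun g => (PhiL K b j g).val 0 0 = gg K g ∧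
    (PhiL K b j g).val 1 0 = 0 ∧ (PhiL K b j g).val 1 1 = 1) ?_ ?_ ?_ ?_ g
  · rw [map_one]
    simp [gg_one]
  · intro i
    rw [PhiL_b]
    exact ⟨rfl, rfl, rfl⟩
  · intro i _
    rw [map_inv, PhiL_b]
    exact ⟨rfl, rfl, rfl⟩
  · rintro g h ⟨a1, a2, a3⟩ ⟨b1, b2, b3⟩
    rw [map_mul, Units.val_mul]
    simp only [Matrix.mul_apply, Fin.sum_univ_two]
    rw [a1, a2, a3, b1, b2, b3, gg_mul]
    simp

/-- the left Fox derivative of a group element -/
noncomputable def dL (K : Type u) [Field K] (b : FreeGroupBasis ι G) (j : ι) (g : G) :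
    MonoidAlgebra K G := (PhiL K b j g).val 0 1

lemma dL_mul (b : FreeGroupBasis ι G) (j : ι) (g h : G) :
    dL K b j (g * h) = gg K g * dL K b j h + dL K b j g := by
  unfold dL
  rw [map_mul, Units.val_mul]
  simp only [Matrix.mul_apply, Fin.sum_univ_two]
  rw [(PhiL_form b j g).1, (PhiL_form b j h).2.2]
  simp

open Classical in
lemma dL_b (b : FreeGroupBasis ι G) (j i : ι) : dL K b j (b i) = if i = j then 1 else 0 := by
  unfold dL
  rw [PhiL_b]
  rfl

/-- the linear extension of the left Fox derivative -/
noncomputable def DL (K : Type u) [Field K] (b : FreeGroupBasis ι G) (j : ι) :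
    MonoidAlgebra K G →+ MonoidAlgebra K G :=
  MonoidAlgebra.liftNC (algebraMap K (MonoidAlgebra K G) : K →+ MonoidAlgebra K G) (dL K b j)

lemma DL_single (b : FreeGroupBasis ι G) (j : ι) (g : G) (c : K) :
    DL K b j (single g c) = algebraMap K (MonoidAlgebra K G) c * dL K b j g := by
  unfold DL
  rw [liftNC_single]
  rfl

open Classical in
lemma DL_mul (b : FreeGroupBasis ι G) (j i : ι) (f : MonoidAlgebra K G) :
    DL K b j (f * gg K (b i)) = (if i = j then f else 0) + DL K b j f := by
  induction f using MonoidAlgebra.induction_linear with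
  | zero => simp
  | add x y hx hy =>
    rw [add_mul, map_add, hx, hy, map_add]
    split_ifs <;> abel
  | single g c =>
    have e : single g c * gg K (b i) = single (g * b i) c := by
      unfold gg
      rw [single_mul_single, mul_one]
    rw [e, DL_single, DL_single, dL_mul, dL_b, mul_add]
    congr 1
    split_ifs
    · rw [mul_one, ← single_eq]
    · simp

/-- **The elements `1 - b i` are left linearly independent.** -/
theorem left_indep [Fintype ι] (b : FreeGroupBasis ι G) (a : ι → MonoidAlgebra K G)
    (h : ∑ i, a i * (1 - gg K (b i)) = 0) (j : ι) : a j = 0 := by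
  classical
  have h1 := congrArg (DL K b j) h
  rw [map_sum, map_zero] at h1
  have h2 : ∀ i, DL K b j (a i * (1 - gg K (b i))) = if i = j then -a i else 0 := by
    intro i
    rw [mul_sub, mul_one, map_sub, DL_mul]
    split_ifs <;> abel
  rw [Finset.sum_congr rfl fun i _ => h2 i, Finset.sum_ite_eq'] at h1
  simpa using h1

/-! ### The augmentation ideal -/

/-- the augmentation -/
noncomputable def aug (K : Type u) [Field K] (G : Type v) [Group G] : MonoidAlgebra K G →ₐ[K] K :=
  MonoidAlgebra.lift K K G 1

lemma aug_single (g : G) (c : K) : aug K G (single g c) = c := by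
  unfold aug
  simp

lemma aug_gg (g : G) : aug K G (gg K g) = 1 := aug_single g 1

/-- the augmentation ideal is generated by the `1 - b i` as a right ideal -/
theorem aug_span [Fintype ι] (b : FreeGroupBasis ι G) (f : MonoidAlgebra K G)
    (hf : aug K G f = 0) : ∃ a : ι → MonoidAlgebra K G, f = ∑ i, (1 - gg K (b i)) * a i := by
  classical
  let S : MonoidAlgebra K G → Prop := fun f => ∃ a : ι → MonoidAlgebra K G,
    f = ∑ i, (1 - gg K (b i)) * a i
  have hadd : ∀ f g, S f → S g → S (f + g) := by
    rintro f g ⟨a, rfl⟩ ⟨a', rfl⟩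
    refine ⟨fun i => a i + a' i, ?_⟩
    rw [← Finset.sum_add_distrib]
    refine Finset.sum_congr rfl fun i _ => ?_
    rw [mul_add]
  have hmul : ∀ f g, S f → S (f * g) := by
    rintro f g ⟨a, rfl⟩
    refine ⟨fun i => a i * g, ?_⟩
    rw [Finset.sum_mul]
    refine Finset.sum_congr rfl fun i _ => ?_
    rw [mul_assoc]
  have hzero : S 0 := ⟨fun _ => 0, by simp⟩
  have hg : ∀ g : G, S (1 - gg K g) := by
    intro g
    refine basis_induction b (fun g => S (1 - gg K g)) ?_ ?_ ?_ ?_ g
    · rw [gg_one, sub_self]; exact hzero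
    · intro i
      refine ⟨fun j => if j = i then 1 else 0, ?_⟩
      simp
    · intro i hi
      have e : 1 - gg K (b i)⁻¹ = (1 - gg K (b i)) * (- gg K (b i)⁻¹) := by
        rw [sub_mul, one_mul, mul_neg, ← gg_mul, mul_inv_cancel, gg_one]
        abel
      rw [e]
      exact hmul _ _ hi
    · intro g h hg hh
      have e : 1 - gg K (g * h) = (1 - gg K h) + (1 - gg K g) * gg K h := by
        rw [gg_mul, sub_mul, one_mul]
        abel
      rw [e]
      exact hadd _ _ hh (hmul _ _ hg)
  have key : ∀ f : MonoidAlgebra K G, S (f - algebraMap K (MonoidAlgebra K G) (aug K G f)) := by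
    intro f
    induction f using MonoidAlgebra.induction_linear with
    | zero => simpa using hzero
    | add x y hx hy =>
      have e : x + y - algebraMap K (MonoidAlgebra K G) (aug K G (x + y)) =
          (x - algebraMap K (MonoidAlgebra K G) (aug K G x)) +
          (y - algebraMap K (MonoidAlgebra K G) (aug K G y)) := by
        rw [map_add, map_add]
        abel
      rw [e]
      exact hadd _ _ hx hy
    | single g c =>
      have e : single g c - algebraMap K (MonoidAlgebra K G) (aug K G (single g c)) =
          (1 - gg K g) * algebraMap K (MonoidAlgebra K G) (-c) := by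
        rw [aug_single, single_eq, sub_mul, one_mul, map_neg, mul_neg, sub_neg_eq_add,
          Algebra.commutes]
        abel
      rw [e]
      exact hmul _ _ (hg g)
  have := key f
  rw [hf, map_zero, sub_zero] at this
  exact this

/-! ### Torsion -/

lemma mul_one_sub_cancel {g : G} (hg : ∀ n : ℕ, g ^ (n + 1) ≠ 1) {c : MonoidAlgebra K G}
    (h : c * (1 - gg K g) = 0) : c = 0 := by
  by_contra hc
  have h1 : c * gg K g = c := by
    rw [mul_sub, mul_one, sub_eq_zero] at h
    exact h.symm
  have h2 : ∀ x : G, c.coeff (x * g) = c.coeff x := by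
    intro x
    have h3 : (c * gg K g).coeff (x * g) = c.coeff x := by
      unfold gg
      rw [coeff_mul_single_apply, mul_one, mul_inv_cancel_right]
    rw [h1] at h3
    exact h3
  obtain ⟨x, hx⟩ : ∃ x, c.coeff x ≠ 0 := by
    by_contra hcon
    push Not at hcon
    apply hc
    ext y
    rw [hcon y]
    rfl
  have h4 : ∀ n : ℕ, c.coeff (x * g ^ n) = c.coeff x := by
    intro n
    induction n with
    | zero => simp
    | succ n ih => rw [pow_succ, ← mul_assoc, h2, ih]
  have hinj : Function.Injective (fun n : ℕ => x * g ^ n) := by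
    have key : ∀ m n : ℕ, m < n → x * g ^ m ≠ x * g ^ n := by
      intro m n hmn he
      have h5 := mul_left_cancel he
      have h6 : g ^ (n - m - 1 + 1) = 1 := by
        rw [show n - m - 1 + 1 = n - m by omega]
        have h7 : g ^ n = g ^ m * g ^ (n - m) := by rw [← pow_add]; congr 1; omega
        rw [h7] at h5
        exact (mul_eq_left.1 h5.symm)
      exact hg _ h6
    intro m n he
    rcases lt_trichotomy m n with h | h | h
    · exact absurd he (key m n h)
    · exact h
    · exact absurd he.symm (key n m h)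
  have hinf : (c.coeff.support : Set G).Infinite := by
    refine Set.infinite_of_injective_forall_mem hinj fun n => ?_
    rw [Finset.mem_coe, Finsupp.mem_support_iff, h4]
    exact hx
  exact hinf (Finset.finite_toSet _)

end Pool.Agent.X27.HN
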